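import Pool.Agent.Helper68.QC.St4

/-! # Part M of project QD: module NUX -/

set_option autoImplicit false

open MeasureTheory Set Filter Topology Complex
open scoped ContDiff ComplexConjugate ENNReal

namespace Pool.Agent.Helper93.QCM

open Pool.Agent.Helper68.QC

theorem vol_image (hCVX : StCVX) {k : ℝ} (hk0 : 0 ≤ k) (hk1 : k < 1) {w : ℂ ≃ₜ ℂ} {a b : ℂ → ℂ}
    (h : QD k w a b) (E : Set ℂ) :
    volume (w '' E) = volume.withDensity (fun z => ENNReal.ofReal (jc a b z)) E := by
  conv_lhs => rw [← hCVX k w a b hk0 hk1 h]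
  rw [w.measurableEmbedding.map_apply, preimage_image_eq _ w.injective]

theorem vol_image_zero (hCVX : StCVX) {k : ℝ} (hk0 : 0 ≤ k) (hk1 : k < 1) {w : ℂ ≃ₜ ℂ}
    {a b : ℂ → ℂ} (h : QD k w a b) (E : Set ℂ) (hE : volume E = 0) : volume (w '' E) = 0 := by
  rw [vol_image hCVX hk0 hk1 h]
  exact withDensity_absolutelyContinuous _ _ hE

theorem aesm_of_L2 {a : ℂ → ℂ} (h : L2 univ a) : AEStronglyMeasurable a volume := by
  have h1 : ∀ n : ℕ, AEStronglyMeasurable a (volume.restrict (Metric.closedBall (0 : ℂ) n)) :=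
    fun n => (h _ (subset_univ _) (isCompact_closedBall _ _)).aestronglyMeasurable
  have h2 := aestronglyMeasurable_iUnion_iff.2 h1
  rwa [Metric.iUnion_closedBall_nat, Measure.restrict_univ] at h2

theorem pNUX (hCVX : StCVX) : Pool.Agent.Helper68.QC.StNUX := by
  intro k w hk0 hk1 hQ
  obtain ⟨⟨a0, b0, h0⟩, ⟨c0, d0, h1⟩⟩ := hQ
  have key : ∀ E : Set ℂ, volume (w '' E) = 0 ↔ volume E = 0 := by
    intro E
    refine ⟨fun hE => ?_, fun hE => vol_image_zero hCVX hk0 hk1 h0 E hE⟩
    have h2 := vol_image_zero hCVX hk0 hk1 h1 _ hE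
    rwa [← image_comp, show (w.symm ∘ w : ℂ → ℂ) = id from funext fun z => w.symm_apply_apply z,
      image_id] at h2
  refine ⟨key, fun a b h => ?_⟩
  have hJ : AEMeasurable (jc a b) volume :=
    ((aesm_of_L2 h.wd.l2a).norm.aemeasurable.pow_const 2).sub
      ((aesm_of_L2 h.wd.l2b).norm.aemeasurable.pow_const 2)
  set J' := hJ.mk (jc a b) with hJ'
  have hm : Measurable J' := hJ.measurable_mk
  have hae : jc a b =ᵐ[volume] J' := hJ.ae_eq_mk
  set Z : Set ℂ := {z | J' z ≤ 0} with hZ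
  have hZm : MeasurableSet Z := measurableSet_le hm measurable_const
  have hz : volume (w '' Z) = 0 := by
    rw [vol_image hCVX hk0 hk1 h, withDensity_apply _ hZm]
    have h3 : (fun z => ENNReal.ofReal (jc a b z)) =ᵐ[volume.restrict Z] fun _ => 0 := by
      filter_upwards [ae_restrict_of_ae hae, ae_restrict_mem hZm] with z h4 h5
      rw [h4]
      exact ENNReal.ofReal_eq_zero.2 h5
    rw [lintegral_congr_ae h3, lintegral_zero]
  have hZ0 : volume Z = 0 := (key Z).1 hz
  have h6 : ∀ᵐ z, z ∉ Z := measure_eq_zero_iff_ae_notMem.1 hZ0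
  filter_upwards [hae, h6] with z h7 h8
  rw [h7]
  exact not_le.1 h8

end Pool.Agent.Helper93.QCM
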